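import Mathlib
import Pool.Agent.Y701.ZT.Fin

/-!
# Linear ramification growth in `ℤ_p`-towers with an absolute constant

For every `ℤ_p`-tower of curves `X_n` over a finite field of characteristic `p` with finite ramification
locus and all large `n`, the splitting field `ℚ_{p,n}` of `P(X_n, s)` over `ℚ_p` satisfies:
`[ℚ_{p,n}(μ_{p ^ n}) : ℚ_{p,n}]` divides the number `w` of roots of unity of `ℚ_p` (`w = p - 1`, and
`w = 2` if `p = 2`), and the ramification index of `ℚ_{p,n}` over `ℚ_p` is at least `p ^ n / p`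
(`2 ^ n / 4` if `p = 2`). The constant `1 / p` (`1 / 4`) does not depend on the tower.
-/

open PowerSeries

namespace Pool.Agent.Results.MP_51ecca_nt.AbsoluteConstant

open Pool.Agent.H707R3

open scoped PowerSeries.WithPiTopology in
/-- The zeta function `Z(X, s) = ∏ (1 - s ^ deg x)⁻¹`, product over the closed points `x` of the curve
`X` with function field `K` over `k`. -/
noncomputable def zeta (p : ℕ) [Fact p.Prime] (k K : Type) [Field k] [Field K] [Algebra k K] :
    PowerSeries ℂ_[p] :=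
  ∏' x : Place k K, (1 - X ^ x.deg)⁻¹

/-- `A` is the multiset of reciprocal roots of `P(X, s) = Z(X, s) (1 - s) (1 - q s)`, `q` the number of elements of `k`:
`P(X, s) = ∏ (1 - α s)`, product over `α ∈ A`. -/
def IsRecipRoots (p : ℕ) [Fact p.Prime] (k K : Type) [Field k] [Field K] [Algebra k K]
    (A : Multiset ℂ_[p]) : Prop :=
  zeta p k K * (1 - X) * (1 - C (Nat.card k : ℂ_[p]) * X) = (A.map fun α => 1 - C α * X).prod

/-- For every `ℤ_p`-tower there is `N` such that for `n ≥ N` the zeta function of the layer `X_n` (the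
intermediate field `K` with `[K : F] = p ^ n`) has reciprocal roots as above, and the field `ℚ_{p,n}`
they generate has ramification index at least `p ^ n / p` (`2 ^ n / 4` if `p = 2`), while
`[ℚ_{p,n}(μ_{p ^ n}) : ℚ_{p,n}]` divides `p - 1` (divides `2` if `p = 2`). -/
theorem result (p : ℕ) [Fact p.Prime] (k F E : Type) [Field k] [Finite k] [CharP k p]
    [Field F] [Algebra k F] [Field E] [Algebra F E] [Algebra k E] [IsScalarTower k F E]
    (h : IsZpTower k F E p) :
    ∃ N : ℕ, ∀ n, N ≤ n → ∀ K : IntermediateField F E, Module.finrank F K = p ^ n →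
      (∃ A, IsRecipRoots p k K A) ∧
        ∀ A, IsRecipRoots p k K A →
          (((if p = 2 then 4 else p : ℕ) : ℝ))⁻¹ ≤
            ((p : ℝ) ^ n)⁻¹ * ramIdx (IntermediateField.adjoin ℚ_[p] {α : ℂ_[p] | α ∈ A}) ∧
          Module.finrank (IntermediateField.adjoin ℚ_[p] {α : ℂ_[p] | α ∈ A})
            (IntermediateField.adjoin (IntermediateField.adjoin ℚ_[p] {α : ℂ_[p] | α ∈ A})
              {w : ℂ_[p] | w ^ p ^ n = 1}) ∣ (if p = 2 then 2 else p - 1) := by
  obtain ⟨N, hN⟩ := Y701.ZT.local_final h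
  refine ⟨N, fun n hn K hK => ⟨H387R3.ZT.exists_roots h K n hK, fun A hA => ?_⟩⟩
  obtain ⟨h1, h2, h3, -, -⟩ := hN n hn K hK A hA
  rw [Y701.ZT.totient_q0] at h1
  refine ⟨?_, h1⟩
  have hp : p.Prime := Fact.out
  have hq : 0 < Y701.ZT.q0 p := by
    unfold Y701.ZT.q0
    split_ifs
    · norm_num
    · exact hp.pos
  have h4 : p ^ n ≤ Y701.ZT.q0 p * ramIdx (genField A) :=
    Nat.le_of_dvd (Nat.mul_pos hq h2) h3
  have h5 : (p : ℝ) ^ n ≤ (Y701.ZT.q0 p : ℝ) * (ramIdx (genField A) : ℝ) := by exact_mod_cast h4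
  have hq' : (0 : ℝ) < (Y701.ZT.q0 p : ℝ) := by exact_mod_cast hq
  have hpn : (0 : ℝ) < (p : ℝ) ^ n := pow_pos (by exact_mod_cast hp.pos) n
  show ((Y701.ZT.q0 p : ℕ) : ℝ)⁻¹ ≤ ((p : ℝ) ^ n)⁻¹ * (ramIdx (genField A) : ℝ)
  rw [inv_mul_eq_div, le_div_iff₀ hpn, inv_mul_le_iff₀ hq']
  exact h5

end Pool.Agent.Results.MP_51ecca_nt.AbsoluteConstant
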